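import Pool.Agent.N71.PS.DStubs3

/-!
# The discriminants `4 p` (D_R4), helper128
-/

set_option autoImplicit false

namespace Pool.Agent.N71.PS.R4

open Finset Filter Pool.Agent.H38R2.CG Pool.Agent.H38R2.CG2
open scoped Classical

theorem units8 : ∀ u : (ZMod 8)ˣ, (u : ZMod 8) = 1 ∨ (u : ZMod 8) = 3 ∨ (u : ZMod 8) = 5 ∨
    (u : ZMod 8) = 7 := by decide

theorem psi_vals (ψ : DirichletCharacter ℂ 8) (h5 : ψ 5 = 1) (hne : ψ ≠ 1) :
    ψ 3 = -1 ∧ ψ 7 = -1 := by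
  have e1 : ψ 3 * ψ 3 = 1 := by
    rw [← map_mul]
    have : (3 : ZMod 8) * 3 = 1 := by decide
    rw [this, map_one]
  have e2 : ψ 7 = ψ 3 := by
    have : (7 : ZMod 8) = 3 * 5 := by decide
    rw [this, map_mul, h5, mul_one]
  have e3 : ψ 3 ≠ 1 := by
    intro h3
    apply hne
    ext u
    rw [MulChar.one_apply u.isUnit]
    rcases units8 u with h | h | h | h
    · rw [h, map_one]
    · rw [h, h3]
    · rw [h, h5]
    · rw [h, e2, h3]
  have e4 : (ψ 3 - 1) * (ψ 3 + 1) = 0 := by linear_combination e1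
  rcases mul_eq_zero.1 e4 with h | h
  · exact absurd (sub_eq_zero.1 h) e3
  · have h3 : ψ 3 = -1 := by linear_combination h
    exact ⟨h3, by rw [e2, h3]⟩

theorem psi_nat (ψ : DirichletCharacter ℂ 8) (h5 : ψ 5 = 1) (hne : ψ ≠ 1) (n : ℕ) (hn : n % 2 = 1) :
    ψ (n : ZMod 8) = (if n % 4 = 1 then 1 else 0) - (if n % 4 = 3 then 1 else 0) := by
  obtain ⟨h3, h7⟩ := psi_vals ψ h5 hne
  have h1 : ((n : ℕ) : ZMod 8) = ((n % 8 : ℕ) : ZMod 8) := by simp
  have h2 : n % 8 = 1 ∨ n % 8 = 3 ∨ n % 8 = 5 ∨ n % 8 = 7 := by omega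
  rcases h2 with h | h | h | h
  · rw [h1, h, if_pos (by omega), if_neg (by omega)]
    simp
  · rw [h1, h, if_neg (by omega), if_pos (by omega)]
    have : ((3 : ℕ) : ZMod 8) = 3 := rfl
    rw [this, h3]
    norm_num
  · rw [h1, h, if_pos (by omega), if_neg (by omega)]
    have : ((5 : ℕ) : ZMod 8) = 5 := rfl
    rw [this, h5]
    norm_num
  · rw [h1, h, if_neg (by omega), if_pos (by omega)]
    have : ((7 : ℕ) : ZMod 8) = 7 := rfl
    rw [this, h7]
    norm_num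

variable [PSet]

theorem D_R4_true : D_R4 := by
  intro hB z p hz hp hzp hp4 ψ f hfr hfz hψ1 h12 h8 hne
  have h16 : 16 ∣ Qz z := Dvd.intro _ rfl
  have hr16 : ((4 * p) % Qz z) % 16 = 12 := by
    rw [Nat.mod_mod_of_dvd _ h16]
    omega
  have h5 := h12 hr16
  have hfQ : f ∣ Qz z := by
    refine hfz.trans (Dvd.dvd.mul_left ?_ 16)
    exact Finset.prod_dvd_prod_of_dvd _ _ fun l _ => dvd_pow_self l two_ne_zero
  have hf4p : f ∣ 4 * p := (Nat.dvd_mod_iff hfQ).1 hfr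
  have hf1 : f = 1 := by
    by_contra hf
    obtain ⟨l, hl, hlf⟩ := Nat.exists_prime_and_dvd hf
    obtain ⟨a, ha, hla⟩ := (Prime.dvd_finsetProd_iff hl.prime _).1 (hlf.trans hfz)
    have ha2 := Finset.mem_filter.1 ha
    have hla' : l = a := (Nat.prime_dvd_prime_iff_eq hl ha2.2).1 hla
    subst hla'
    have ha3 := Finset.mem_Icc.1 ha2.1
    rcases (Nat.Prime.dvd_mul hl).1 (hlf.trans hf4p) with h | h
    · have h2 : l ∣ 2 ^ 2 := by norm_num; exact h
      have h3 := (Nat.prime_dvd_prime_iff_eq hl Nat.prime_two).1 (hl.dvd_of_dvd_pow h2)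
      omega
    · have h3 := (Nat.prime_dvd_prime_iff_eq hl hp).1 h
      omega
  have hψ : ψ ≠ 1 := fun h => hne ⟨h, hf1⟩
  obtain ⟨β, hβ, y0, hy0⟩ := hB
  refine ⟨β, hβ, max y0 2, fun y hy => ?_⟩
  have h6 := hy0 y (le_trans (le_max_left _ _) hy)
  have hy2 : 2 ≤ y := le_trans (le_max_right _ _) hy
  rw [← PP_eq] at h6
  have h7 : ∑ q ∈ PP y, ψ (q : ZMod 8) * ((jacobiSym (q : ℤ) f : ℤ) : ℂ) =
      (((((PP y).filter (fun q => q % 4 = 1)).card : ℝ) -
        ((PP y).filter (fun q => q % 4 = 3)).card : ℝ) : ℂ) := by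
    have h8 : ∀ q ∈ PP y, ψ (q : ZMod 8) * ((jacobiSym (q : ℤ) f : ℤ) : ℂ) =
        (if q % 4 = 1 then (1 : ℂ) else 0) - (if q % 4 = 3 then 1 else 0) := by
      intro q hq
      obtain ⟨⟨h9, -⟩, hqp, -⟩ := mem_PP.1 hq
      have hodd : q % 2 = 1 := by
        rcases hqp.eq_two_or_odd with h | h
        · omega
        · exact h
      rw [hf1, jacobiSym.one_right, psi_nat ψ h5 hψ q hodd]
      simp
    rw [Finset.sum_congr rfl h8, Finset.sum_sub_distrib, Finset.sum_boole, Finset.sum_boole]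
    push_cast
    rfl
  rw [h7, Complex.norm_real, Real.norm_eq_abs]
  exact h6

end Pool.Agent.N71.PS.R4
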